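import Pool.Agent.Helper30.TQ.St

/-!
# Project TQ, module STP: no unit between `1 + c a` and `1`
-/

set_option autoImplicit false

namespace Pool.Agent.Helper66.TQ

open Pool.Agent.Helper30.TQ

private theorem ev_inj (hI : StINJ) {c : ℤ} (hc : 3 ≤ c) {a : ℝ} (ha : Rt c a)
    {u v : ℤ × ℤ × ℤ} (h : ev a u = ev a v) : u = v := by
  have h1 := (hI c hc a ha).1 (u.1 - v.1, u.2.1 - v.2.1, u.2.2 - v.2.2) (by
    unfold ev at h ⊢
    push_cast
    linear_combination h)
  have h2 : u.1 - v.1 = 0 ∧ u.2.1 - v.2.1 = 0 ∧ u.2.2 - v.2.2 = 0 := by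
    simpa [Prod.ext_iff] using h1
  obtain ⟨e1, e2, e3⟩ := h2
  exact Prod.ext (by omega) (Prod.ext (by omega) (by omega))

/-- the numerical contradiction -/
private theorem num {c3 e A B r : ℝ} (hc : 0 < c3) (he : 0 < e) (hA : 0 < A) (hB : 0 < B)
    (hr : 0 < r) (hABe : A * B * e = 1) (h5 : 1 ≤ 5 * c3 * e) (hrB : r * B = A)
    (hr3 : 49 * c3 ≤ r ^ 3) (hB3 : 49 * c3 ≤ B ^ 3) : False := by
  have hAB : A * B ≤ 5 * c3 := by
    by_contra hcon
    have h1 := not_le.1 hcon
    have h2 : 5 * c3 * e < A * B * e := mul_lt_mul_of_pos_right h1 he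
    linarith
  have h1 : (A * B) ^ 3 ≤ (5 * c3) ^ 3 := pow_le_pow_left₀ (mul_pos hA hB).le hAB 3
  have h2 : (A * B) ^ 3 = r ^ 3 * (B ^ 3) ^ 2 := by
    rw [← hrB]
    ring
  have h3 : (49 * c3) ^ 2 ≤ (B ^ 3) ^ 2 := pow_le_pow_left₀ (by positivity) hB3 2
  have h4 : 49 * c3 * (49 * c3) ^ 2 ≤ r ^ 3 * (B ^ 3) ^ 2 :=
    mul_le_mul hr3 h3 (by positivity) (by positivity)
  have h5' : 0 < c3 ^ 3 := by positivity
  nlinarith [h1, h2, h4, h5']

/-- Module STP. -/
theorem hSTP (hA : StALG) (hI : StINJ) (hG : StGAP) (hS : StSQR) : StSTP := by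
  intro c hc a ha u hu h1 h2
  have haR : Rt c a := ha
  obtain ⟨hrt, -, -, he0, -, h5⟩ := ha
  obtain ⟨e, he⟩ : ∃ e : ℝ, e = 1 + (c : ℝ) * a := ⟨_, rfl⟩
  rw [← he] at h1 he0 h5
  have hcR : (3 : ℝ) ≤ (c : ℝ) := by exact_mod_cast hc
  have hc3 : (0 : ℝ) < (c : ℝ) ^ 3 := by positivity
  have hE : ev a (1, c, 0) = e := by
    rw [he]
    unfold ev
    push_cast
    ring
  have hnE : nm c (1, c, 0) = 1 := by
    unfold nm
    ring
  have hone : ev a ((1 : ℤ), (0 : ℤ), (0 : ℤ)) = 1 := by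
    unfold ev
    push_cast
    ring
  have hno : nm c ((1 : ℤ), (0 : ℤ), (0 : ℤ)) = 1 := by
    unfold nm
    ring
  have hmul : ∀ v w : ℤ × ℤ × ℤ, ev a (mu c v w) = ev a v * ev a w := fun v w =>
    (hA c v w v).2.2.2.2.2 a hrt
  have hnmul : ∀ v w : ℤ × ℤ × ℤ, nm c (mu c v w) = nm c v * nm c w := fun v w =>
    (hA c v w v).1
  have hiv : ∀ v : ℤ × ℤ × ℤ, nm c v = 1 → nm c (iv c v) = 1 ∧ ev a v * ev a (iv c v) = 1 := by
    intro v hv
    have k := (hA c v v v).2.1
    rw [hv] at k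
    constructor
    · have k1 := hnmul v (iv c v)
      rw [k, hno, hv, one_mul] at k1
      exact k1.symm
    · rw [← hmul, k, hone]
  obtain ⟨n1, i1⟩ := hiv u hu
  obtain ⟨n2, i2⟩ := hiv (1, c, 0) hnE
  rw [hE] at i2
  set V : ℝ := ev a u with hV
  set A : ℝ := ev a (iv c u) with hAd
  set I0 : ℝ := ev a (iv c (1, c, 0)) with hI0
  have hV0 : 0 < V := he0.trans h1
  have hA1 : 1 < A := by
    by_contra hcon
    have h3 := not_lt.1 hcon
    nlinarith
  have hI00 : 0 < I0 := by
    by_contra hcon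
    have h3 := not_lt.1 hcon
    nlinarith
  have hB : ev a (mu c u (iv c (1, c, 0))) = V * I0 := hmul _ _
  have hnB : nm c (mu c u (iv c (1, c, 0))) = 1 := by rw [hnmul, hu, n2, one_mul]
  have hBe : (V * I0) * e = V := by
    calc (V * I0) * e = V * (e * I0) := by ring
      _ = V := by rw [i2, mul_one]
  have hB1 : 1 < V * I0 := by
    by_contra hcon
    have h3 := not_lt.1 hcon
    nlinarith
  have gA := hG c hc a haR (iv c u) n1 hA1
  have gB := hG c hc a haR (mu c u (iv c (1, c, 0))) hnB (by rw [hB]; exact hB1)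
  rw [hB] at gB
  rw [← hAd] at gA
  set B : ℝ := V * I0 with hBd
  have hABe : A * B * e = 1 := by
    calc A * B * e = V * A * (e * I0) := by rw [hBd]; ring
      _ = 1 := by rw [i1, i2, one_mul]
  have hA0 : 0 < A := by linarith
  have hB0 : 0 < B := by linarith
  rcases lt_trichotomy A B with hlt | heq | hgt
  · -- `B / A`
    have hev : ev a (mu c (mu c u u) (iv c (1, c, 0))) = V * V * I0 := by
      rw [hmul, hmul]
    have hnr : nm c (mu c (mu c u u) (iv c (1, c, 0))) = 1 := by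
      rw [hnmul, hnmul, hu, n2, one_mul, one_mul]
    have hrA : (V * V * I0) * A = B := by
      calc (V * V * I0) * A = V * A * (V * I0) := by ring
        _ = B := by rw [i1, one_mul]
    have hr1 : 1 < V * V * I0 := by
      by_contra hcon
      have h3 := not_lt.1 hcon
      have h4 : (V * V * I0) * A ≤ 1 * A := mul_le_mul_of_nonneg_right h3 hA0.le
      rw [hrA, one_mul] at h4
      linarith
    have gr := hG c hc a haR _ hnr (by rw [hev]; exact hr1)
    rw [hev] at gr
    exact num hc3 he0 hB0 hA0 (by linarith) (by rw [mul_comm B A]; exact hABe) h5 hrA gr gA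
  · have h3 : V * V = e := by
      have h4 : V * (A * e) = V * (B * e) := by rw [heq]
      have h5' : V * (A * e) = e := by
        calc V * (A * e) = V * A * e := by ring
          _ = e := by rw [i1, one_mul]
      rw [h5', hBe] at h4
      exact h4.symm
    have h4 : mu c u u = (1, c, 0) := by
      apply ev_inj hI hc haR
      rw [hmul, hE]
      exact h3
    exact hS c (by omega) u h4
  · have hev : ev a (mu c (mu c (iv c u) (iv c u)) (1, c, 0)) = A * A * e := by
      rw [hmul, hmul, hE]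
    have hnr : nm c (mu c (mu c (iv c u) (iv c u)) (1, c, 0)) = 1 := by
      rw [hnmul, hnmul, n1, hnE, one_mul, one_mul]
    have hrB : (A * A * e) * B = A := by
      calc (A * A * e) * B = A * (A * B * e) := by ring
        _ = A := by rw [hABe, mul_one]
    have hr1 : 1 < A * A * e := by
      by_contra hcon
      have h3 := not_lt.1 hcon
      have h4 : (A * A * e) * B ≤ 1 * B := mul_le_mul_of_nonneg_right h3 hB0.le
      rw [hrB, one_mul] at h4
      linarith
    have gr := hG c hc a haR _ hnr (by rw [hev]; exact hr1)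
    rw [hev] at gr
    exact num hc3 he0 hA0 hB0 (by linarith) hABe h5 hrB gr gB

end Pool.Agent.Helper66.TQ
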